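import Pool.Agent.Run7.h962.LF.PoiSh
import Pool.Agent.Run7.h962.AP.A7

/-!
# Prime constellations: the exact limit of the sieve weights of Goldston, Pintz, Yıldırım, Maynard and Tao, given any
constellation

A nonnegative weight of level `Q` is a function `w(n) ≥ 0` which is a sum of arbitrary functions of the residues of `n`
modulo the `d ≤ Q`.  All unconditional results on the existence of several primes among the shifts `n + h` of `n` rest on such
weights (`Q = N^(θ - δ)` for `n ≤ N`, if `θ` is the level of distribution).  Let `A` be a set of shifts which are prescribed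
(for instance `A = {0}`: the weight lives on the primes `n`; or `A` is any prime constellation), and let `H` be a set of `k`
further shifts.  The weight `w` needs to be nonnegative only at the `n` for which all `n + a`, `a ∈ A`, have no prime factor `≤ Q`.
For a set `T` let `E(T)` be the main term of Hardy and Littlewood for the mean of `w(n) ∏_{t ∈ T} Λ(n + t)`, with the
singular series restricted to the primes `≤ Q`.  We prove that, for all `r`,

(1) `∑_{R ⊆ H, #R = r} E(A ∪ R) ≤ (((1/2 + ε) log k + C(ε)) log Q)^r / r! · E(A)`, where `C(ε)` does not depend on `k`, `A`, `H`, nor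
on the number of the elements of `A`.

So, even if the conjecture of Hardy and Littlewood is granted with the level of distribution `θ` for all the constellations
`A ∪ R`, no nonnegative weight of any shape detects more than `((θ/2 + o(1)) log k)^r / r!` constellations `A ∪ R` per
constellation `A`, among `k` further shifts.  (For `A = ∅` this is sharp for each `r` as `k → ∞`, by the weights of Maynard
and Tao, which give it for `r = 1`, and Jensen's inequality.)  Moreover, with `L = (e^(-γ)/2 + ε) log k + C` and the number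
`X(n)` of the `h ∈ H` for which `n + h` has no prime factor `≤ Q`, the weighted distribution of `X` on the `n` with `n + a` free
of such factors, `a ∈ A`, satisfies

(2) (Poisson tail) `X ≥ m` has the weighted proportion at most `e^(m - L) (L/m)^m`, for all integers `m ≥ L`;

(3) (rigidity) if `w` is nearly extremal, i.e. the weighted mean of `X` is at least `(1 - η) L`, then the weighted mean of
`(X - L)^2` is at most `2 η L^2 + L`: almost all `n`, with respect to a nearly extremal weight, have almost exactly the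
extremal number of `n + h` without prime factors `≤ Q`;

(4) for the primes themselves, unconditionally (`A = ∅`): if `0 < δ < 1/2`, `H` lies in `[0, √N]` and `w ≥ 0` is a weight of level
`Q = ⌊N^δ⌋` for which `∑_d (∑_a |c_d(a)|)^2 / φ(d)` is at most a fixed power of `log N` times the square of the mean of `w` (as it
is for the weights of Maynard and Tao), then
`∑_{n < N} w(n) #{h ∈ H : n + h prime} ≤ ((δ/2 + ε) log k + C(ε)) ∑_{n < N} w(n)`;

(5) if in (4) the left hand side is at least `(1 - η) e^γ δ L ∑_{n < N} w(n)` (`e^γ L = (1/2 + e^γ ε) log k + e^γ C`; the weights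
which are nearly extremal for the number of primes), then the weighted mean of `(X - L)^2` over the `n` mod `Q!` is at most
`2 (η + ε) L^2 + L`.

Proof.  The case `r = 1` for the integers `n` at which a given polynomial `P` has no prime factor `≤ Q`, with constants
independent of `P` (`LP.lin_poly` in `Pool/Agent/Run7/h962/LF/Gen.lean`, which extends MP_8923e7_nt.SharpLimitOfNonnegativeWeights, a
project of helpers 962, 816, 249, 420, 571, 956, 697, 743, 97, 245, 372 and 91 on starting files of helper422), is applied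
with `P = ∏_{t ∈ A ∪ R} (x + t)` and the shifts in `H \ R`; summation over the sets `R` with `r` elements bounds the
factorial moment of order `r + 1` of `X` by the one of order `r`.  (4) and (5) (`Pool/Agent/Run7/h962/AP`) use the theorem of
Bombieri and Vinogradov (`H442R2/KF/Bv` of helper442, on starting files), the prime number theorem and Cauchy's inequality: the
weighted number of the primes `n + h` is at most `(1 + o(1)) e^γ δ` times the weighted mean of `X`, up to `o(1)`.
-/

set_option autoImplicit false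

open Finset

namespace Pool.Agent.Results.MP_68a45e_nt.LimitForConstellations

/-- the weight `w(n) = ∑_{d ≤ Q} c_d(n mod d)`, an arbitrary real weight of level `Q` -/
noncomputable def weight (Q : ℕ) (c : ℕ → ℕ → ℝ) (n : ℕ) : ℝ := ∑ d ∈ Icc 1 Q, c d (n % d)

/-- the set of the `h ∈ T` for which `n + h` has no prime factor `p ≤ Q` -/
def free (Q : ℕ) (T : Finset ℕ) (n : ℕ) : Finset ℕ :=
  T.filter (fun h => ∀ p ∈ Icc 1 Q, p.Prime → ¬ p ∣ n + h)

/-- the `n` modulo `Q!` for which the `n + a`, `a ∈ A`, have no prime factor `p ≤ Q` -/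
def sifted (Q : ℕ) (A : Finset ℕ) : Finset ℕ := (range Q.factorial).filter (fun n => free Q A n = A)

/-- the product `∏_{p ≤ Q} (1 - 1/p)^(-1)`, asymptotically equal to `e^γ log Q` -/
noncomputable def euler (Q : ℕ) : ℝ := (∏ p ∈ (Icc 1 Q).filter Nat.Prime, (1 - 1 / (p : ℝ)))⁻¹

/-- The main term `E(T)` of Hardy and Littlewood for the mean of `w(n) ∏_{t ∈ T} Λ(n + t)`, the singular series being restricted
to the primes `p ≤ Q`: `∏_{p ≤ Q} (1 - 1/p)^(-#T)` times the mean (over all `n` modulo `Q!`) of the function equal to `w(n)` if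
the `n + t`, `t ∈ T`, have no prime factor `p ≤ Q`, and to `0` otherwise.  For `w = 1` this is
`∏_{p ≤ Q} (1 - ν_p(T)/p) (1 - 1/p)^(-#T)`. -/
noncomputable def mainTerm (Q : ℕ) (c : ℕ → ℕ → ℝ) (T : Finset ℕ) : ℝ :=
  euler Q ^ T.card * ((∑ n ∈ sifted Q T, weight Q c n) / (Q.factorial : ℝ))

/-- the mean value of `F` over the `n` for which the `n + a`, `a ∈ A`, have no prime factor `≤ Q` -/
noncomputable def mean (Q : ℕ) (A : Finset ℕ) (F : ℕ → ℝ) : ℝ :=
  (∑ n ∈ sifted Q A, F n) / ((sifted Q A).card : ℝ)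

/-- For every `ε > 0` there is `C > 0` such that (1), (2), (3) hold for all `k ≥ 1`, `g`, all real `B`, all `Q ≥ Q₀(ε, k, g, B)`,
all disjoint sets `A`, `H` of natural numbers `≤ Q^B` with at most `g`, respectively with `k` elements, and every weight `w` of level
`Q` with `w(n) ≥ 0` for all `n` for which the `n + a`, `a ∈ A`, have no prime factor `≤ Q`; let `L = (e^(-γ)/2 + ε) log k + C`, and
let `X(n)` be the number of the `h ∈ H` for which `n + h` has no prime factor `≤ Q`.

(1) For all `r`, the sum of `E(A ∪ R)` over the `R ⊆ H` with `r` elements is at most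
`(((1/2 + ε) log k + C) log Q)^r / r! · E(A)`.

(2) For all integers `m ≥ L`, the mean (over the `n` for which the `n + a`, `a ∈ A`, have no prime factor `≤ Q`) of the function
equal to `w(n)` if `X(n) ≥ m`, and to `0` otherwise, is at most `e^(m - L) (L/m)^m` times the mean of `w`.

(3) For all real `η`: if the mean of `w X` is at least `(1 - η) L` times the mean of `w`, then the mean of `w (X - L)^2` is at most
`2 η L^2 + L` times the mean of `w`.

Let `k ≥ 1`, `0 < δ < 1/2`, `A₀ ≥ 0` and `N ≥ N₀(ε, k, δ, A₀)`, let `H` be a set of `k` integers in `[0, √N]` and `w ≥ 0` a weight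
of level `Q = ⌊N^δ⌋` with `∑_{d ≤ Q} (∑_{a < d} |c_d(a)|)^2 / φ(d) ≤ (log N)^A₀ ((1/N) ∑_{n < N} w(n))^2`.

(4) `∑_{n < N} w(n) #{h ∈ H : n + h prime} ≤ ((δ/2 + ε) log k + C) ∑_{n < N} w(n)`.

(5) For all real `η ≥ 0`: if `0 < ∑_{n < N} w(n)` and
`∑_{n < N} w(n) #{h ∈ H : n + h prime} ≥ (1 - η) e^γ δ L ∑_{n < N} w(n)`, where `L = (e^(-γ)/2 + ε) log k + C`, then the mean of
`w (X - L)^2` (over all `n` modulo `Q!`) is at most `2 (η + ε) L^2 + L` times the mean of `w`. -/
theorem result : ∀ ε : ℝ, 0 < ε → ∃ C : ℝ, 0 < C ∧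
    (∀ (k g : ℕ) (B : ℝ), 1 ≤ k → ∃ Q₀ : ℕ, ∀ Q : ℕ, Q₀ ≤ Q →
    ∀ A H : Finset ℕ, A.card ≤ g → H.card = k → Disjoint A H → (∀ h ∈ A ∪ H, (h : ℝ) ≤ (Q : ℝ) ^ B) →
    ∀ c : ℕ → ℕ → ℝ, (∀ n : ℕ, free Q A n = A → 0 ≤ weight Q c n) →
    ∀ L : ℝ, L = (Real.exp (-Real.eulerMascheroniConstant) / 2 + ε) * Real.log k + C →
    (∀ r : ℕ, ∑ R ∈ H.powersetCard r, mainTerm Q c (A ∪ R) ≤
      (((1 / 2 + ε) * Real.log k + C) * Real.log Q) ^ r / (r.factorial : ℝ) * mainTerm Q c A) ∧
    (∀ m : ℕ, L ≤ m → mean Q A (fun n => if m ≤ (free Q H n).card then weight Q c n else 0) ≤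
      Real.exp (m - L) * (L / m) ^ m * mean Q A (weight Q c)) ∧
    (∀ η : ℝ, (1 - η) * L * mean Q A (weight Q c) ≤ mean Q A (fun n => weight Q c n * ((free Q H n).card : ℝ)) →
      mean Q A (fun n => weight Q c n * (((free Q H n).card : ℝ) - L) ^ 2) ≤
        (2 * η * L ^ 2 + L) * mean Q A (weight Q c))) ∧
    (∀ (k : ℕ) (δ : ℝ) (A₀ : ℕ), 1 ≤ k → 0 < δ → δ < 1 / 2 → ∃ N₀ : ℕ, ∀ N : ℕ, N₀ ≤ N →
      ∀ H : Finset ℕ, H.card = k → (∀ h ∈ H, (h : ℝ) ≤ √N) →
      ∀ c : ℕ → ℕ → ℝ, (∀ n, 0 ≤ weight ⌊(N : ℝ) ^ δ⌋₊ c n) →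
        ∑ d ∈ Icc 1 ⌊(N : ℝ) ^ δ⌋₊, (∑ a ∈ range d, |c d a|) ^ 2 / (Nat.totient d : ℝ) ≤
          Real.log N ^ A₀ * ((∑ n ∈ range N, weight ⌊(N : ℝ) ^ δ⌋₊ c n) / N) ^ 2 →
        ∑ n ∈ range N, weight ⌊(N : ℝ) ^ δ⌋₊ c n * ((H.filter (fun h => (n + h).Prime)).card : ℝ) ≤
          ((δ / 2 + ε) * Real.log k + C) * ∑ n ∈ range N, weight ⌊(N : ℝ) ^ δ⌋₊ c n ∧
        (0 < ∑ n ∈ range N, weight ⌊(N : ℝ) ^ δ⌋₊ c n →
          ∀ L η : ℝ, L = (Real.exp (-Real.eulerMascheroniConstant) / 2 + ε) * Real.log k + C → 0 ≤ η →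
          (1 - η) * (Real.exp Real.eulerMascheroniConstant * δ * L) * ∑ n ∈ range N, weight ⌊(N : ℝ) ^ δ⌋₊ c n ≤
            ∑ n ∈ range N, weight ⌊(N : ℝ) ^ δ⌋₊ c n * ((H.filter (fun h => (n + h).Prime)).card : ℝ) →
          mean ⌊(N : ℝ) ^ δ⌋₊ ∅ (fun n => weight ⌊(N : ℝ) ^ δ⌋₊ c n *
              (((free ⌊(N : ℝ) ^ δ⌋₊ H n).card : ℝ) - L) ^ 2) ≤
            (2 * (η + ε) * L ^ 2 + L) * mean ⌊(N : ℝ) ^ δ⌋₊ ∅ (weight ⌊(N : ℝ) ^ δ⌋₊ c))) := by
  classical
  intro ε hε
  obtain ⟨C1, hC1, h1⟩ := Pool.Agent.Run7.h962.LP.shifts_all ε hε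
  obtain ⟨C2, hC2, hP⟩ := Pool.Agent.Run7.h962.AP.ap ε hε
  obtain ⟨C3, hC3, hR⟩ := Pool.Agent.Run7.h962.AP.rigid ε hε
  obtain ⟨C, hCd⟩ : ∃ C : ℝ, C = max C1 (max C2 C3) := ⟨_, rfl⟩
  have hC1C : C1 ≤ C := by rw [hCd]; exact le_max_left _ _
  have hC2C : C2 ≤ C := by rw [hCd]; exact (le_max_left _ _).trans (le_max_right _ _)
  have hC3C : C3 ≤ C := by rw [hCd]; exact (le_max_right _ _).trans (le_max_right _ _)
  have hC : 0 < C := by linarith
  refine ⟨C, hC, fun k g B hk => ?_, fun k δ A₀ hk hδ0 hδ => ?_⟩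
  swap
  · obtain ⟨N₀, hP⟩ := hP k δ A₀ hk hδ0 hδ
    obtain ⟨N₁, hR⟩ := hR C hC3C k δ A₀ hk hδ0 hδ
    refine ⟨max N₀ N₁, fun N hN H hH hHN c hc hcn => ⟨?_, fun hS L η hL hη hT => ?_⟩⟩
    · refine (hP N ((le_max_left _ _).trans hN) H hH hHN c hc hcn).trans ?_
      exact mul_le_mul_of_nonneg_right (by linarith) (Finset.sum_nonneg fun n _ => hc n)
    · have hs : ∀ Q, sifted Q ∅ = range Q.factorial := by
        intro Q
        unfold sifted
        apply Finset.filter_true_of_mem
        intro n _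
        simp [free]
      have hm : ∀ Q F, mean Q ∅ F = Pool.Agent.Run7.h962.AP.mn Q F := by
        intro Q F
        unfold mean Pool.Agent.Run7.h962.AP.mn
        rw [hs, card_range]
      rw [hm, hm]
      exact hR N ((le_max_right _ _).trans hN) H hH hHN c hc hcn hS L η hL hη hT
  obtain ⟨Q0, h2⟩ := h1 k g B hk
  refine ⟨Q0, fun Q hQ A H hA hH hAH hB c hc L hL => ?_⟩
  have h3 := h2 Q hQ A H hA hH hAH hB c hc
  have hlogk : 0 ≤ Real.log k := Real.log_natCast_nonneg k
  have hlogQ : 0 ≤ Real.log Q := Real.log_natCast_nonneg Q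
  have hSn : 0 ≤ ∑ n ∈ (range Q.factorial).filter (fun n => Pool.Agent.Run7.h962.LP.frH Q A n = A),
      Pool.Agent.N422.SL.wt Q c n := Finset.sum_nonneg fun n hn => hc n (mem_filter.1 hn).2
  replace h3 : (∀ r : ℕ, (r.factorial : ℝ) * ∑ n ∈ (range Q.factorial).filter
        (fun n => Pool.Agent.Run7.h962.LP.frH Q A n = A),
        Pool.Agent.N422.SL.wt Q c n * ((Pool.Agent.Run7.h962.LP.frH Q H n).card.choose r : ℝ) ≤
      L ^ r * ∑ n ∈ (range Q.factorial).filter (fun n => Pool.Agent.Run7.h962.LP.frH Q A n = A),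
        Pool.Agent.N422.SL.wt Q c n) ∧
    (∀ r : ℕ, (r.factorial : ℝ) * ((∏ p ∈ (Icc 1 Q).filter Nat.Prime, (1 - 1 / (p : ℝ)))⁻¹ ^ r *
      ∑ n ∈ (range Q.factorial).filter (fun n => Pool.Agent.Run7.h962.LP.frH Q A n = A),
        Pool.Agent.N422.SL.wt Q c n * ((Pool.Agent.Run7.h962.LP.frH Q H n).card.choose r : ℝ)) ≤
      (((1 / 2 + ε) * Real.log k + C) * Real.log Q) ^ r *
        ∑ n ∈ (range Q.factorial).filter (fun n => Pool.Agent.Run7.h962.LP.frH Q A n = A),
          Pool.Agent.N422.SL.wt Q c n) :=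
    ⟨fun r => (h3.1 r).trans (mul_le_mul_of_nonneg_right
        (pow_le_pow_left₀ (by positivity) (by rw [hL]; linarith) r) hSn),
      fun r => (h3.2 r).trans (mul_le_mul_of_nonneg_right
        (pow_le_pow_left₀ (by positivity) (mul_le_mul_of_nonneg_right (by linarith) hlogQ) r) hSn)⟩
  have hQf : (0 : ℝ) < (Q.factorial : ℝ) := by exact_mod_cast Nat.factorial_pos Q
  have hLp : 0 < L := by
    have : 0 ≤ Real.log k := Real.log_natCast_nonneg k
    rw [hL]
    positivity
  have hw : ∀ n ∈ sifted Q A, 0 ≤ weight Q c n := fun n hn => hc n (mem_filter.1 hn).2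
  have hfac : ∀ r : ℕ, (0 : ℝ) < (r.factorial : ℝ) := fun r => by exact_mod_cast Nat.factorial_pos r
  have hfree : ∀ (R : Finset ℕ) (n : ℕ), free Q R n = R ↔ ∀ h ∈ R, ∀ p ∈ Icc 1 Q, p.Prime → ¬ p ∣ n + h := by
    intro R n
    unfold free
    exact Finset.filter_eq_self
  have hsum : ∀ r : ℕ, ∑ R ∈ H.powersetCard r, ∑ n ∈ sifted Q (A ∪ R), weight Q c n =
      ∑ n ∈ sifted Q A, weight Q c n * ((free Q H n).card.choose r : ℝ) := by
    intro r
    have e1 : ∀ R : Finset ℕ, ∑ n ∈ sifted Q (A ∪ R), weight Q c n =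
        ∑ n ∈ sifted Q A, (if R ⊆ free Q H n ∨ free Q R n = R then (if free Q R n = R then weight Q c n else 0) else 0) := by
      intro R
      have e2 : sifted Q (A ∪ R) = (sifted Q A).filter (fun n => free Q R n = R) := by
        unfold sifted
        rw [Finset.filter_filter]
        apply Finset.filter_congr
        intro n _
        rw [hfree, hfree, hfree]
        constructor
        · intro h
          exact ⟨fun a ha => h a (mem_union_left _ ha), fun a ha => h a (mem_union_right _ ha)⟩
        · rintro ⟨h4, h5⟩ a ha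
          rcases mem_union.1 ha with h | h
          · exact h4 a h
          · exact h5 a h
      rw [e2, Finset.sum_filter]
      apply Finset.sum_congr rfl
      intro n _
      by_cases h : free Q R n = R
      · rw [if_pos h, if_pos (Or.inr h)]
      · rw [if_neg h]
        simp
    simp only [e1]
    rw [Finset.sum_comm]
    apply Finset.sum_congr rfl
    intro n _
    have e3 : ∀ R ∈ H.powersetCard r,
        (if R ⊆ free Q H n ∨ free Q R n = R then (if free Q R n = R then weight Q c n else 0) else 0) =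
        (if R ∈ (free Q H n).powersetCard r then weight Q c n else 0) := by
      intro R hR
      rw [mem_powersetCard] at hR
      by_cases h : free Q R n = R
      · rw [if_pos (Or.inr h), if_pos h, if_pos]
        rw [mem_powersetCard]
        refine ⟨fun x hx => ?_, hR.2⟩
        have : x ∈ free Q R n := by rw [h]; exact hx
        unfold free at this ⊢
        rw [mem_filter] at this ⊢
        exact ⟨hR.1 hx, this.2⟩
      · have h4 : R ∉ (free Q H n).powersetCard r := by
          intro h5
          rw [mem_powersetCard] at h5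
          apply h
          rw [hfree]
          intro x hx
          exact (mem_filter.1 (h5.1 hx)).2
        rw [if_neg h4, if_neg h]
        simp
    rw [Finset.sum_congr rfl e3, ← Finset.sum_filter, Finset.sum_const, nsmul_eq_mul, mul_comm]
    congr 2
    rw [← Finset.card_powersetCard]
    congr 1
    ext R
    rw [mem_filter, mem_powersetCard, mem_powersetCard]
    constructor
    · rintro ⟨_, h⟩
      exact h
    · intro h
      exact ⟨⟨h.1.trans (Finset.filter_subset _ _), h.2⟩, h⟩
  refine ⟨fun r => ?_, fun m hm => ?_, fun η hη => ?_⟩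
  · have e : ∑ R ∈ H.powersetCard r, mainTerm Q c (A ∪ R) = euler Q ^ A.card * (euler Q ^ r *
        (∑ n ∈ sifted Q A, weight Q c n * ((free Q H n).card.choose r : ℝ))) / (Q.factorial : ℝ) := by
      rw [← hsum r, Finset.mul_sum, Finset.mul_sum, Finset.sum_div]
      apply Finset.sum_congr rfl
      intro R hR
      rw [mem_powersetCard] at hR
      unfold mainTerm
      rw [Finset.card_union_of_disjoint (Finset.disjoint_of_subset_right hR.1 hAH), hR.2, pow_add]
      ring
    rw [e]
    unfold mainTerm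
    have h4 := h3.2 r
    have he : 0 ≤ euler Q ^ A.card := by
      apply pow_nonneg
      exact (inv_pos.2 (Pool.Agent.Run7.h962.LP.euler_pos Q)).le
    have h5 : euler Q ^ r * (∑ n ∈ sifted Q A, weight Q c n * ((free Q H n).card.choose r : ℝ)) ≤
        (((1 / 2 + ε) * Real.log k + C) * Real.log Q) ^ r / (r.factorial : ℝ) * ∑ n ∈ sifted Q A, weight Q c n := by
      rw [div_mul_eq_mul_div, le_div_iff₀ (hfac r), mul_comm]
      exact h4
    rw [div_le_iff₀ hQf]
    calc _ ≤ euler Q ^ A.card * ((((1 / 2 + ε) * Real.log k + C) * Real.log Q) ^ r / (r.factorial : ℝ) *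
          ∑ n ∈ sifted Q A, weight Q c n) := mul_le_mul_of_nonneg_left h5 he
      _ = _ := by field_simp
  · have h4 := Pool.Agent.Run7.h962.LP.tail (S := sifted Q A) (w := weight Q c)
      (X := fun n => (free Q H n).card) hLp (k := k)
      (fun n => by
        rw [← hH]
        exact Finset.card_le_card (Finset.filter_subset _ _)) hw h3.1 m hm
    unfold mean
    rw [← Finset.sum_filter, ← mul_div_assoc]
    exact div_le_div_of_nonneg_right h4 (Nat.cast_nonneg _)
  · rcases Nat.eq_zero_or_pos (sifted Q A).card with h0 | h0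
    · rw [Finset.card_eq_zero] at h0
      unfold mean
      rw [h0]
      simp
    have h0' : (0 : ℝ) < ((sifted Q A).card : ℝ) := by exact_mod_cast h0
    unfold mean at hη ⊢
    rw [← mul_div_assoc, div_le_div_iff_of_pos_right h0'] at hη
    rw [← mul_div_assoc, div_le_div_iff_of_pos_right h0']
    exact Pool.Agent.Run7.h962.LP.concentration (S := sifted Q A) (w := weight Q c)
      (X := fun n => (free Q H n).card) hLp.le h3.1 η hη

end Pool.Agent.Results.MP_68a45e_nt.LimitForConstellations
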