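import Mathlib
import Pool.Agent.Run7.h402.PW.W9

/-!
# The asymptotic formula of Hardy and Littlewood for almost all constellations with a growing number of primes

There are arbitrarily large `Y` such that for ALL `X` between `Y` and `exp ((log Y) ^ (17 / 10))` and ALL lengths
`k ≤ (log Y) ^ (1 / 25)`, the asymptotic formula of Hardy and Littlewood holds for all but the proportion
`exp (-(log Y) ^ (1 / 25))` of the constellations `P = (m_1, …, m_k)` with `1 ≤ m_i ≤ X`, uniformly for all `y ≤ X`.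
-/

set_option autoImplicit false

open Finset
open Filter (Tendsto atTop)
open scoped Topology Classical

namespace Pool.Agent.Results.MP_68a45e_nt.LongConstellations

/-- the number `w(q)` of residue classes modulo `q` occupied by `0, m_1, …, m_k`, counted through the classes `r` for which `q`
divides one of `r, r + m_1, …, r + m_k` -/
def w {k : ℕ} (m : Fin k → ℕ) (q : ℕ) : ℕ := ((range q).filter (fun r => q ∣ r ∨ ∃ i, q ∣ r + m i)).card

/-- the partial products of the singular series -/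
noncomputable def part {k : ℕ} (m : Fin k → ℕ) (z : ℕ) : ℝ :=
  ∏ q ∈ (Icc 1 z).filter Nat.Prime, (1 - (w m q : ℝ) / q) / (1 - 1 / (q : ℝ)) ^ (k + 1)

/-- the constant `C_P` -/
noncomputable def C {k : ℕ} (m : Fin k → ℕ) : ℝ := Filter.limUnder atTop (part m)

/-- the constellation is admissible: for every prime `q` some integer `r` makes none of `r, r + m_1, …, r + m_k` divisible by `q` -/
def Admissible {k : ℕ} (m : Fin k → ℕ) : Prop := ∀ q : ℕ, q.Prime → ∃ r : ℕ, ¬ q ∣ r ∧ ∀ i, ¬ q ∣ r + m i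

/-- the number `π_P(y)` of primes `p ≤ y` such that all `p + m_i` are prime -/
def piP {k : ℕ} (m : Fin k → ℕ) (y : ℕ) : ℕ := ((Icc 1 y).filter (fun p => p.Prime ∧ ∀ i, (p + m i).Prime)).card

/-- the asymptotic formula for the constellation `m`, uniformly up to `X`, with relative error `(log X) ^ (-9 / 10)` and a
secondary error with the factor `δ` -/
def Formula {k : ℕ} (m : Fin k → ℕ) (X : ℕ) (δ : ℝ) : Prop :=
  Tendsto (part m) atTop (𝓝 (C m)) ∧
  (Admissible m → 0 < C m ∧ ∀ y : ℕ, y ≤ X →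
    |(piP m y : ℝ) * Real.log X ^ (k + 1) - C m * y| ≤ C m * (y * Real.log X ^ (-(9 / 10) : ℝ) + X * δ))

open Run7.h402.PW
open Run7.h402.PT (nup Ap)

theorem w_eq {k : ℕ} (m : Fin k → ℕ) (q : ℕ) : nup (cz m) q = w m q := by
  unfold nup w
  congr 1
  apply filter_congr
  intro r _
  unfold Ap cz
  rw [Fin.exists_fin_succ]
  simp only [Fin.cons_zero, Fin.cons_succ, add_zero]

theorem part_eq {k : ℕ} (m : Fin k → ℕ) : Sz (cz m) = part m := by
  funext z
  unfold Sz part
  have h : Pool.Agent.H373R2.T7.pz z = (Icc 1 z).filter Nat.Prime := by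
    ext p
    rw [Pool.Agent.H373R2.T7.mem_pz, mem_filter, mem_Icc]
    constructor
    · rintro ⟨h1, h2⟩
      exact ⟨⟨h2.one_lt.le, h1⟩, h2⟩
    · rintro ⟨⟨_, h1⟩, h2⟩
      exact ⟨h1, h2⟩
  rw [h]
  apply prod_congr rfl
  intro q _
  rw [w_eq]

theorem adm_of {k : ℕ} (m : Fin k → ℕ) (h : Admissible m) : Adm (cz m) := by
  intro p hp
  obtain ⟨r, hr0, hr⟩ := h p hp
  refine ⟨(p - r % p) % p, Nat.mod_lt _ hp.pos, ?_⟩
  have key : ∀ t : ℕ, ¬ p ∣ r + t → t % p ≠ (p - r % p) % p := by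
    intro t ht he
    apply ht
    rw [Nat.dvd_iff_mod_eq_zero, Nat.add_mod, he, ← Nat.add_mod]
    have h3 := Nat.mod_add_div r p
    have h4 := Nat.mod_lt r hp.pos
    have h5 : r + (p - r % p) = p * (r / p + 1) := by
      have h6 : p * (r / p + 1) = p * (r / p) + p := by ring
      omega
    rw [h5, Nat.mul_mod_right]
  intro i
  refine Fin.cases ?_ (fun j => ?_) i
  · exact key 0 (by rwa [add_zero])
  · exact key (m j) (hr j)

theorem cnt_eq {k : ℕ} (m : Fin k → ℕ) (y : ℕ) : cnt (cz m) y = piP m y := by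
  unfold cnt piP
  congr 1
  apply filter_congr
  intro n _
  unfold cz
  rw [Fin.forall_fin_succ]
  simp only [Fin.cons_zero, Fin.cons_succ, add_zero]

/-- **The Hardy–Littlewood asymptotic formula for almost all constellations with a growing number of primes.** -/
theorem result : ∀ Y₀ : ℝ, ∃ Y : ℝ, Y₀ ≤ Y ∧ ∀ X : ℕ, Y ≤ X → (X : ℝ) ≤ Real.exp (Real.log Y ^ (17 / 10 : ℝ)) →
    ∀ k : ℕ, 1 ≤ k → (k : ℝ) ≤ Real.log Y ^ (1 / 25 : ℝ) →
      (((Fintype.piFinset (fun _ : Fin k => Icc 1 X)).filter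
        (fun m => ¬ Formula m X (Real.exp (-(Real.log Y ^ (1 / 25 : ℝ)))))).card : ℝ) ≤
        Real.exp (-(Real.log Y ^ (1 / 25 : ℝ))) * (X : ℝ) ^ k := by
  intro Y₀
  obtain ⟨l1, h1⟩ := almost_const
  obtain ⟨l2, h2⟩ := S_bounds
  obtain ⟨l3, h3⟩ := Filter.eventually_atTop.1 ((tendsto_rpow_atTop (show (0 : ℝ) < 2 / 25 by norm_num)).eventually_ge_atTop 200000)
  obtain ⟨l4, h4⟩ := Filter.eventually_atTop.1 ((tendsto_rpow_atTop (show (0 : ℝ) < 1 / 25 by norm_num)).eventually_ge_atTop 2)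
  obtain ⟨l5, h5⟩ := Filter.eventually_atTop.1 ((tendsto_rpow_atTop (show (0 : ℝ) < 3 / 10 by norm_num)).eventually_ge_atTop 3)
  obtain ⟨l, hlL, hgood⟩ := good_scales (max (max (max l1 l2) (max l3 l4)) (max (max l5 (Y₀ + 1)) 100000000))
  have hl1 : l1 ≤ l := (((le_max_left _ _).trans (le_max_left _ _)).trans (le_max_left _ _)).trans hlL
  have hl2 : l2 ≤ l := (((le_max_right _ _).trans (le_max_left _ _)).trans (le_max_left _ _)).trans hlL
  have hl3 : l3 ≤ l := (((le_max_left _ _).trans (le_max_right _ _)).trans (le_max_left _ _)).trans hlL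
  have hl4 : l4 ≤ l := (((le_max_right _ _).trans (le_max_right _ _)).trans (le_max_left _ _)).trans hlL
  have hl5 : l5 ≤ l := (((le_max_left _ _).trans (le_max_left _ _)).trans (le_max_right _ _)).trans hlL
  have hlY : Y₀ + 1 ≤ l := (((le_max_right _ _).trans (le_max_left _ _)).trans (le_max_right _ _)).trans hlL
  have hl8 : 100000000 ≤ l := ((le_max_right _ _).trans (le_max_right _ _)).trans hlL
  have hl0 : 0 < l := by linarith
  have hlone : 1 ≤ l := by linarith
  have hl23 : l ≤ l ^ 23 := le_self_pow₀ hlone (by norm_num)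
  have hlogY : Real.log (Real.exp (l ^ 23)) = l ^ 23 := Real.log_exp _
  have hrp : ∀ c : ℝ, (l ^ 23) ^ c = l ^ (23 * c) := by
    intro c
    rw [← Real.rpow_natCast, ← Real.rpow_mul hl0.le]
    norm_num
  refine ⟨Real.exp (l ^ 23), ?_, ?_⟩
  · have := Real.add_one_le_exp (l ^ 23)
    linarith
  intro X hX1 hX2 k hk1 hkY
  rw [hlogY] at hX2 hkY ⊢
  rw [hrp] at hX2 hkY ⊢
  have hX0 : (0 : ℝ) < X := (Real.exp_pos _).trans_le hX1
  have hXn : 1 ≤ X := by exact_mod_cast hX0
  have h24 : l ^ (23 * (1 / 25) : ℝ) * l ^ (2 / 25 : ℝ) = l := by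
    rw [← Real.rpow_add hl0]
    norm_num
  have hq0 : 0 < l ^ (23 * (1 / 25) : ℝ) := by positivity
  have hq1 : 1 ≤ l ^ (23 * (1 / 25) : ℝ) := Real.one_le_rpow hlone (by norm_num)
  have hsmall : l ^ (23 * (1 / 25) : ℝ) ≤ l / 200000 := by
    have h6 := h3 l hl3
    rw [le_div_iff₀ (by norm_num)]
    calc l ^ (23 * (1 / 25) : ℝ) * 200000 ≤ l ^ (23 * (1 / 25) : ℝ) * l ^ (2 / 25 : ℝ) := by gcongr
      _ = l := h24
  have hk' : ((k + 1 : ℕ) : ℝ) ≤ l ^ (24 / 25 : ℝ) := by
    have h6 := h4 l hl4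
    have h7 : l ^ (23 * (1 / 25) : ℝ) * l ^ (1 / 25 : ℝ) = l ^ (24 / 25 : ℝ) := by
      rw [← Real.rpow_add hl0]
      norm_num
    push_cast
    calc (k : ℝ) + 1 ≤ l ^ (23 * (1 / 25) : ℝ) + l ^ (23 * (1 / 25) : ℝ) := add_le_add hkY hq1
      _ = l ^ (23 * (1 / 25) : ℝ) * 2 := by ring
      _ ≤ l ^ (23 * (1 / 25) : ℝ) * l ^ (1 / 25 : ℝ) := by gcongr
      _ = _ := h7
  have hX4 : ((4 * X : ℕ) : ℝ) ≤ Real.exp (l ^ 41) := by
    have h6 : l ^ (23 * (17 / 10) : ℝ) ≤ l ^ 40 := by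
      rw [← Real.rpow_natCast]
      apply Real.rpow_le_rpow_of_exponent_le hlone
      norm_num
    have h7 : (4 : ℝ) ≤ Real.exp (l ^ 40) := by
      have h8 := Real.add_one_le_exp (l ^ 40)
      have h9 : l ≤ l ^ 40 := le_self_pow₀ hlone (by norm_num)
      linarith
    push_cast
    calc 4 * (X : ℝ) ≤ Real.exp (l ^ 40) * Real.exp (l ^ 40) := by
          apply mul_le_mul h7 (hX2.trans (Real.exp_le_exp.2 h6)) (by positivity) (by positivity)
      _ = Real.exp (l ^ 40 + l ^ 40) := (Real.exp_add _ _).symm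
      _ ≤ Real.exp (l ^ 41) := by
          apply Real.exp_le_exp.2
          have h8 : l ^ 41 = l * l ^ 40 := by ring
          have h9 : 0 < l ^ 40 := by positivity
          nlinarith
  have hlogX : Real.log X ≤ l ^ 41 := by
    rw [Real.log_le_iff_le_exp hX0]
    refine le_trans ?_ hX4
    push_cast
    linarith
  have hLlow : l ^ 23 ≤ Real.log X := by
    rw [Real.le_log_iff_exp_le hX0]; exact hX1
  have hL0 : 0 < Real.log X := by linarith
  have key := h1 l hl1 hgood X hX1 hX4 k hk'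
  have hE : Real.exp (-(l / 20000)) ≤ Real.exp (-(l ^ (23 * (1 / 25) : ℝ))) := by
    apply Real.exp_le_exp.2
    linarith
  have hE2 : Real.exp (-(l / 100000)) ≤ Real.exp (-(l ^ (23 * (1 / 25) : ℝ))) := by
    apply Real.exp_le_exp.2
    linarith
  have hrel : 3 * l ^ 2 / Real.log X ≤ Real.log X ^ (-(9 / 10) : ℝ) := by
    have h6 : Real.log X ^ (-(9 / 10) : ℝ) = Real.log X ^ (1 / 10 : ℝ) / Real.log X := by
      rw [show (-(9 / 10) : ℝ) = 1 / 10 - 1 by norm_num, Real.rpow_sub_one hL0.ne']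
    rw [h6]
    apply div_le_div_of_nonneg_right _ hL0.le
    have h7 : (l ^ 23) ^ (1 / 10 : ℝ) ≤ Real.log X ^ (1 / 10 : ℝ) :=
      Real.rpow_le_rpow (by positivity) hLlow (by norm_num)
    refine le_trans ?_ h7
    rw [hrp]
    have h8 : l ^ (23 * (1 / 10) : ℝ) = l ^ 2 * l ^ (3 / 10 : ℝ) := by
      rw [← Real.rpow_natCast, ← Real.rpow_add hl0]
      norm_num
    rw [h8]
    have h9 := h5 l hl5
    nlinarith [sq_nonneg l]
  have hsub : (Fintype.piFinset (fun _ : Fin k => Icc 1 X)).filter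
      (fun m => ¬ Formula m X (Real.exp (-(l ^ (23 * (1 / 25) : ℝ))))) ⊆
      (Fintype.piFinset (fun _ : Fin k => Icc 1 X)).filter (fun m => ¬ Fine l X (cz m)) := by
    intro m hm
    rw [mem_filter] at hm ⊢
    refine ⟨hm.1, fun hF => hm.2 ?_⟩
    obtain ⟨hinj, hmain⟩ := hF
    have hlim : Tendsto (part m) atTop (𝓝 (C m)) := by
      unfold C
      apply tendsto_nhds_limUnder
      obtain ⟨S, hS⟩ := Sz_tendsto (cz m) hinj
      rw [part_eq] at hS
      exact ⟨S, hS⟩
    refine ⟨hlim, fun hadm => ?_⟩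
    have hadm' := adm_of m hadm
    have hczX : ∀ i, cz m i ≤ X := by
      intro i
      refine Fin.cases ?_ (fun j => ?_) i
      · exact Nat.zero_le _
      · exact (mem_Icc.1 (Fintype.mem_piFinset.1 hm.1 j)).2
    have hS' : Tendsto (Sz (cz m)) atTop (𝓝 (C m)) := by
      rw [part_eq]; exact hlim
    obtain ⟨b1, _, b3⟩ := h2 l hl2 X hXn hlogX (k + 1) (by omega) hk' (cz m) hczX hinj hadm' (C m) hS'
    have hCpos : 0 < C m := by
      have b4 := (abs_le.1 b3).1
      have b5 := expc 2 (l / 2) 0 (by linarith)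
      rw [neg_zero, Real.exp_zero] at b5
      have b6 : 0 < Sz (cz m) (Run7.h402.PT.zl l) := (Real.exp_pos _).trans_le b1
      nlinarith
    refine ⟨hCpos, fun y hy => ?_⟩
    have h6 := hmain hadm' (C m) hS' y hy
    rw [cnt_eq] at h6
    refine h6.trans ?_
    apply mul_le_mul_of_nonneg_left _ hCpos.le
    have hy0 : (0 : ℝ) ≤ y := by positivity
    gcongr
  have h6 : (((Fintype.piFinset (fun _ : Fin k => Icc 1 X)).filter
      (fun m => ¬ Formula m X (Real.exp (-(l ^ (23 * (1 / 25) : ℝ)))))).card : ℝ) ≤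
      (((Fintype.piFinset (fun _ : Fin k => Icc 1 X)).filter (fun m => ¬ Fine l X (cz m))).card : ℝ) := by
    exact_mod_cast card_le_card hsub
  refine h6.trans (key.trans ?_)
  gcongr

end Pool.Agent.Results.MP_68a45e_nt.LongConstellations
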