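import Pool.Agent.Run7.h52.AsmT6

set_option autoImplicit false

namespace Pool.Agent.Results.MP_68a45e_nt.SquareWeightsAndPrimes

open Run7.h52.TW

/-- Arbitrary sums of squares of level `N ^ θ`, `θ < 1`, detect on average at most
`(θ / (1 - θ) + ε) k log k / (k - 1)` primes among `k` shifts, in every interval of length `N`. -/
theorem result : ∀ θ ε B : ℝ, 0 < θ → θ < 1 → 0 < ε → 0 ≤ B →
    ∃ T : ℝ, ∀ (N : ℕ) (H : Finset ℤ), T ≤ N → 2 ≤ H.card →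
    T * H.card * Real.log (Real.log N) ≤ Real.log N → (∀ h ∈ H, |(h : ℝ)| ≤ (N : ℝ) ^ B) →
    ∀ w : ℤ → ℝ, SquareWeight ((N : ℝ) ^ θ) w →
    (∀ x : ℤ, ∑ n ∈ Finset.Ioc x (x + N), w n * ((roughShifts (Real.sqrt N) H n).card : ℝ)
      ≤ (θ / (1 - θ) + ε) * (H.card * Real.log H.card / (H.card - 1)) *
        ∑ n ∈ Finset.Ioc x (x + N), w n) ∧
    ∀ x : ℤ, ∑ n ∈ Finset.Ioc x (x + N), w n * ((primeShifts (Real.sqrt N) H n).card : ℝ)
      ≤ (θ / (1 - θ) + ε) * (H.card * Real.log H.card / (H.card - 1)) *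
        ∑ n ∈ Finset.Ioc x (x + N), w n :=
  Run7.h52.AsmT.mainT

end Pool.Agent.Results.MP_68a45e_nt.SquareWeightsAndPrimes
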