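import Pool.Agent.Run7.h673.SP.Mul
import Pool.Agent.H560R3.GB.Defs

/-!
# Prime constellations: all the small multiples of all the integers near values of functions of superpolynomial growth

For almost all vectors of values of functions such as `exp (γ (log n) ^ β)`, `1 < β < 3 / 2`, the formula of Hardy and
Littlewood holds for ALL the constellations `p, p + h 1 q 1, ..., p + h r q r` with integers `q i` near the values and
multipliers `h i ≤ log ^ J N`.

Definitions used: `Pool.Agent.H373R2.T7.singZ a z`: the partial product over the primes `p ≤ z` of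
`(1 - ν(p) / p) / (1 - 1 / p) ^ (k + 1)`, where `ν(p)` is the number of `r < p` for which `p` divides
`r (r + a 1) ... (r + a k)`; `Pool.Agent.H373R2.T7.tupleCount a N`: the sum of
`log p * ∏ i, log (p + a i)` over the primes `p ≤ N` for which all `p + a i` are primes;
`Pool.Agent.H373R2.T7.Admissible a`: for every prime `p` there is an `r` such that `p` divides neither
`r` nor any `r + a i`; `Pool.Agent.H560R3.GB.primeTuples a N`: the number of primes `p ≤ N` for which
all `p + a i` are primes. From Mathlib: `Fintype.piFinset S`: the set of the vectors `n` with `n i ∈ S i`; `⌊y⌋₊`: the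
integer part of `y`, and `0` for `y < 0`.

Method: the characteristic function of the integer part of `exp (φ (log n))`, for `n` in intervals `(y, x]` of a length of
at most `x / log x`, is small at all frequencies which are not close to integers (Vinogradov's method of bilinear
exponential sums with the mean value theorem in the form of a starting file; files `Pool.Agent.Run7.h673.SP`), so the
large spectrum of all the multiples of the values is thin (`Pool.Agent.Run7.h673.SP.Tcl`). The passage from a thin large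
spectrum to prime tuples is from the starting files (`Pool.Agent.N625.PT.t_tuples`).
-/

set_option autoImplicit false

namespace Pool.Agent.Results.MP_68a45e_nt.SuperpolynomialMultiples

open Finset Pool.Agent.H560R3.GB
open Pool.Agent.H373R2.T7 (singZ tupleCount Admissible)

/-- The conditions on `φ` for the growth of `f t = exp (φ (log t))`: for some `δ > 0`, `C` and `L₀` and all `y > L₀` the
function `φ` is infinitely differentiable at `y`, `φ y > 0`, `(1 + δ) φ y ≤ y φ' y`, `φ y ≤ y ^ (3 / 2 - δ)`, and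
`|φ⁽ᵐ⁾ y| ≤ m! φ y (C / y) ^ m` for all `m ≥ 1`. -/
def Rapid (φ : ℝ → ℝ) : Prop :=
  ∃ δ C L₀ : ℝ, 0 < δ ∧ ∀ y > L₀, ContDiffAt ℝ ((⊤ : ℕ∞) : WithTop ℕ∞) φ y ∧ 0 < φ y ∧
    (1 + δ) * φ y ≤ y * deriv φ y ∧ φ y ≤ y ^ (3 / 2 - δ) ∧
    ∀ m : ℕ, 1 ≤ m → |iteratedDeriv m φ y| ≤ m.factorial * φ y * (C / y) ^ m

/-- `(y, x]` is an admissible interval of the scale `N`: `x / log ^ a N ≤ x - y ≤ x / log x`, and
`exp (φ (log n)) ≤ N ≤ exp (φ (log x)) log ^ a N` for `y < n ≤ x`. -/
def Interval (φ : ℝ → ℝ) (a N x y : ℕ) : Prop :=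
  y < x ∧ (x : ℝ) - x / Real.log x ≤ y ∧ (x : ℝ) ≤ Real.log N ^ a * ((x : ℝ) - y) ∧
  (∀ n : ℕ, n ∈ Ioc y x → Real.exp (φ (Real.log n)) ≤ N) ∧ (N : ℝ) ≤ Real.log N ^ a * Real.exp (φ (Real.log x))

/-- The formula of Hardy and Littlewood for the shifts `b 1, ..., b r` and the primes up to `X`: the
singular series converges, its sum `S` predicts the weighted number of prime tuples with an error of
at most `X / log ^ U X`, and, if the shifts are admissible, `S` is positive and `S X / log ^ (r + 1) X`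
predicts the number of prime tuples with a relative error of at most `ε`. -/
def Holds {r : ℕ} (ε : ℝ) (U X : ℕ) (b : Fin r → ℕ) : Prop :=
  ∃ S : ℝ, Filter.Tendsto (fun z => singZ (fun i => (b i : ℤ)) z) Filter.atTop (nhds S) ∧
    |tupleCount (fun i => (b i : ℤ)) X - S * X| ≤ (X : ℝ) / Real.log X ^ U ∧
    (Admissible (fun i => (b i : ℤ)) → 0 < S ∧
      |(primeTuples b X : ℝ) - S * (X / Real.log X ^ (r + 1))| ≤ ε * (S * (X / Real.log X ^ (r + 1))))

/-- The formula holds for the primes up to `X` and for ALL the shifts `h i q i` with natural numbers `q i` at a distance of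
at most `w` from `c i` and with multipliers `1 ≤ h i ≤ H`. -/
def AllMultiples {r : ℕ} (ε : ℝ) (U X : ℕ) (H w : ℝ) (c : Fin r → ℤ) : Prop :=
  ∀ q : Fin r → ℕ, (∀ i, |(q i : ℝ) - (c i : ℝ)| ≤ w) → ∀ h : Fin r → ℕ, (∀ i, 1 ≤ h i ∧ (h i : ℝ) ≤ H) →
    Holds ε U X (fun i => h i * q i)

open Classical in
/-- **(1)** Let `φ i` (`i < r`, `r ≥ 1`) satisfy the conditions `Rapid`, and let `κ i ≠ 0`, `B`, `J`, `J₂`, `U`, `W`, `a` and
`ε > 0` be fixed. Let `N` be large, `N log ^ (J + 2) N ≤ X ≤ N log ^ J₂ N`, let `(y i, x i]` be admissible intervals of the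
scale `N`, and let `|c i| ≤ B N`. Then all the vectors `n` with `y i < n i ≤ x i`, with at most
`∏ (x i - y i) / log ^ U N` exceptions, have the following property: for ALL the natural numbers `q i` at a distance of at
most `log ^ W N` from `c i + κ i ⌊exp (φ i (log (n i)))⌋` and ALL multipliers `1 ≤ h i ≤ log ^ J N`, the formula of Hardy and
Littlewood holds for the primes `p ≤ X` and the constellation `p, p + h 1 q 1, ..., p + h r q r`.

**(2)** For every `φ` with the conditions `Rapid` and all large `M`, the interval `(M - ⌊M / log M⌋, M]` is admissible, for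
`a = 2` and `N = ⌈exp (φ (log M))⌉`.

**(3)** The functions `φ y = γ y ^ β` with `γ > 0` and `1 < β < 3 / 2` satisfy the conditions `Rapid`: so (1) holds for the
superpolynomial functions `exp (γ (log n) ^ β)`. -/
theorem result :
    (∀ (r : ℕ), 1 ≤ r → ∀ φ : Fin r → ℝ → ℝ, (∀ i, Rapid (φ i)) → ∀ κ : Fin r → ℤ, (∀ i, κ i ≠ 0) →
      ∀ (B J J₂ W U a : ℕ) (ε : ℝ), 0 < ε →
      ∃ N₀ : ℕ, ∀ N : ℕ, N₀ ≤ N → ∀ X : ℕ, (N : ℝ) * Real.log N ^ (J + 2) ≤ X → (X : ℝ) ≤ N * Real.log N ^ J₂ →
      ∀ x y : Fin r → ℕ, (∀ i, Interval (φ i) a N (x i) (y i)) → ∀ c : Fin r → ℤ, (∀ i, |c i| ≤ B * N) →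
      (((Fintype.piFinset fun i => Ioc (y i) (x i)).filter fun n =>
        ¬ AllMultiples ε U X (Real.log N ^ J) (Real.log N ^ W)
          (fun i => c i + κ i * (⌊Real.exp (φ i (Real.log (n i)))⌋₊ : ℕ))).card : ℝ) ≤
        (∏ i, ((x i : ℝ) - y i)) / Real.log N ^ U) ∧
    (∀ φ : ℝ → ℝ, Rapid φ → ∃ M₀ : ℕ, ∀ M : ℕ, M₀ ≤ M →
      Interval φ 2 ⌈Real.exp (φ (Real.log M))⌉₊ M (M - ⌊(M : ℝ) / Real.log M⌋₊)) ∧
    (∀ γ β : ℝ, 0 < γ → 1 < β → β < 3 / 2 → Rapid (fun y => γ * y ^ β)) := by
  refine ⟨fun r hr φ hφ κ hκ B J J₂ W U a ε hε => ?_, fun φ hφ => ?_,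
    fun γ β h1 h2 h3 => Pool.Agent.Run7.h673.SP.rapid_pow γ β h1 h2 h3⟩
  · obtain ⟨N₀, h0⟩ := Pool.Agent.Run7.h673.SP.tup r hr φ (fun i => hφ i) κ hκ B J J₂ W U a ε hε
    refine ⟨N₀, fun N hN X hX1 hX2 x y hI c hc => ?_⟩
    refine le_trans (Nat.cast_le.2 (card_le_card fun n hn => ?_)) (h0 N hN X hX1 hX2 x y
      (fun i => ⟨(hI i).1, (hI i).2.1, (hI i).2.2.1, (hI i).2.2.2.1, (hI i).2.2.2.2⟩) c hc)
    rw [mem_filter] at hn ⊢
    refine ⟨hn.1, fun hcon => hn.2 ?_⟩
    intro q hq h hh
    exact hcon q (fun i => by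
      have := hq i
      push_cast at this ⊢
      exact this) h hh
  · have hφ' : Pool.Agent.Run7.h673.SP.Rapid φ := hφ
    obtain ⟨X₀, h⟩ := hφ'.block' 0
    exact ⟨X₀, fun X hX => ⟨(h X hX).2.lt, (h X hX).2.short, (h X hX).2.long, (h X hX).2.up, (h X hX).2.low⟩⟩

end Pool.Agent.Results.MP_68a45e_nt.SuperpolynomialMultiples
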